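import Mathlib
import Pool.Agent.Lib.MP_cfc8f6_pr.Exist

/-!
DLA in thin wedges: the growth rate does not tend to one. For the wedges between the angles `0` and
`arctan (1 / m)` the process exists and its growth rate is almost surely at most `168 / 169`,
whatever `m` is; hence the answer to question Q1 is negative.
-/

open MeasureTheory

namespace Pool.Agent.Results.MP_cfc8f6_pr.ThinWedgeDLA

open Pool.Agent.Lib.MP_cfc8f6_pr

/-- **Negative answer to Q1.** For every `m ≥ 1` the pair `(0, arctan (1 / m))` is admissible, DLA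
exists in the wedge between these angles, and every DLA process in this wedge has growth rate at
most `168 / 169` almost surely. Since the angle `arctan (1 / m)` tends to zero, Q1 fails.

(The lemma `outer_limit` of the library file `Limit` shows that the limit in the definition of the
harmonic measure exists for the outer boundary of every finite connected set containing the origin,
and `outer_sum` that its total mass is one.) -/
theorem result :
    (∀ m : ℕ, 1 ≤ m →
      Admissible 0 (Real.arctan (1 / (m : ℝ))) ∧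
      (∃ (Ω : Type) (_ : MeasurableSpace Ω) (P : Measure Ω) (_ : IsProbabilityMeasure P)
        (A : ℕ → Ω → Finset (ℤ × ℤ)), IsDLA (wedge 0 (Real.arctan (1 / (m : ℝ)))) P A) ∧
      (∀ (Ω : Type) [MeasurableSpace Ω] (P : Measure Ω) [IsProbabilityMeasure P]
        (A : ℕ → Ω → Finset (ℤ × ℤ)), IsDLA (wedge 0 (Real.arctan (1 / (m : ℝ)))) P A →
          ∀ᵐ ω ∂P, growthRate (fun n => A n ω) ≤ 168 / 169)) ∧
    ¬ Q1 := by
  have hmain : ∀ m : ℕ, 1 ≤ m →
      Admissible 0 (Real.arctan (1 / (m : ℝ))) ∧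
      (∃ (Ω : Type) (_ : MeasurableSpace Ω) (P : Measure Ω) (_ : IsProbabilityMeasure P)
        (A : ℕ → Ω → Finset (ℤ × ℤ)), IsDLA (wedge 0 (Real.arctan (1 / (m : ℝ)))) P A) ∧
      (∀ (Ω : Type) [MeasurableSpace Ω] (P : Measure Ω) [IsProbabilityMeasure P]
        (A : ℕ → Ω → Finset (ℤ × ℤ)), IsDLA (wedge 0 (Real.arctan (1 / (m : ℝ)))) P A →
          ∀ᵐ ω ∂P, growthRate (fun n => A n ω) ≤ 168 / 169) := by
    intro m hm
    rw [wedge_eq hm]
    refine ⟨admissible hm, exists_dla hm, ?_⟩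
    intro Ω _ P _ A hA
    exact growth_bound hm hA
  refine ⟨hmain, ?_⟩
  rintro ⟨g, hg, hlim⟩
  obtain ⟨δ, hδ, hδ'⟩ := hlim (1 / 169) (by norm_num)
  obtain ⟨m, hm1, hm⟩ : ∃ m : ℕ, 1 ≤ m ∧ 1 / (m : ℝ) < δ := by
    obtain ⟨k, hk⟩ := exists_nat_one_div_lt hδ
    refine ⟨k + 1, by omega, ?_⟩
    push_cast
    exact hk
  obtain ⟨hadm, ⟨Ω, hΩ, P, hP, A, hA⟩, hbound⟩ := hmain m hm1
  have h1 := hg _ _ hadm Ω P A hA
  have h2 := hbound Ω P A hA
  obtain ⟨ω, hω1, hω2⟩ := (h1.and h2).exists
  rw [hω1] at hω2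
  have hmpos : (0 : ℝ) < m := by exact_mod_cast hm1
  have h3 : Real.arctan (1 / (m : ℝ)) < 1 / (m : ℝ) := by
    have h5 : 0 < Real.arctan (1 / (m : ℝ)) := by
      rw [Real.arctan_pos]
      positivity
    have h6 := Real.lt_tan h5 (Real.arctan_lt_pi_div_two _)
    rw [Real.tan_arctan] at h6
    exact h6
  have h4 := hδ' _ _ hadm (by linarith)
  rw [abs_lt] at h4
  linarith [h4.1]

end Pool.Agent.Results.MP_cfc8f6_pr.ThinWedgeDLA
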